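import Pool.Agent.Q24.HV.Nr
import Pool.Agent.Q260.GM.Uc
import Pool.Agent.Q296.GM.Rh

set_option autoImplicit false

/-!
# Project HV, job PR: the principal character term under RH
-/

namespace Pool.Agent.Q24.HV

open MeasureTheory Filter Topology Set Complex
open Pool.Agent.Q253.HV
open Pool.Agent.Q260.GM (ph Dl L2psi Qf w1 T1a Q_sq Qf_int w1_int w1_nonneg)
open Pool.Agent.Q213.GM (ph_meas Dl_meas)

/-! ### the mean square -/

/-- the short intervals -/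
lemma short (hRH : RiemannHypothesis) : ∃ C : ℝ, 0 < C ∧ ∀ x : ℝ, 0 < x → x ≤ 1 / 4 →
    ∫ u in Ioi (0 : ℝ), Dl (1 / 2) u ^ 2 * Real.exp (-(2 * x * u)) ≤ C / x ^ 2 := by
  obtain ⟨C1, hC1, h1⟩ := T1a hRH (Pool.Agent.Q296.GM.L2_of_rh hRH)
  obtain ⟨C2, hC2, h2⟩ := Q_sq hRH
  obtain ⟨J, hJ⟩ : ∃ J : ℝ, J = ∫ t, w1 t := ⟨_, rfl⟩
  have hJ0 : 0 ≤ J := by rw [hJ]; exact integral_nonneg w1_nonneg
  refine ⟨C1 + C2 * (J + 1), by positivity, fun x hx hx1 => ?_⟩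
  have h3 := h1 (1 / 2) x (by norm_num) le_rfl hx hx1
  have hQi := Qf_int hRH (κ := 1 / 2) (by norm_num) (by norm_num) hx hx1
  have h4 : ∫ t, Qf (1 / 2) x t ^ 2 ≤ C2 / x ^ 2 * (1 / 2 : ℝ) ^ (1 / 2 : ℝ) * J := by
    rw [hJ, ← integral_const_mul]
    exact integral_mono hQi (w1_int.const_mul _) fun t => h2 (1 / 2) x (by norm_num) (by norm_num) hx hx1 t
  have h5 : (1 / 2 : ℝ) ^ (1 / 2 : ℝ) ≤ 1 := Real.rpow_le_one (by norm_num) (by norm_num) (by norm_num)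
  have h6 : (1 / 2 : ℝ) ^ (5 / 4 : ℝ) ≤ 1 := Real.rpow_le_one (by norm_num) (by norm_num) (by norm_num)
  have hx2 : 0 < x ^ 2 := by positivity
  have h7 : C2 / x ^ 2 * (1 / 2 : ℝ) ^ (1 / 2 : ℝ) * J ≤ C2 / x ^ 2 * J := by
    have : C2 / x ^ 2 * (1 / 2 : ℝ) ^ (1 / 2 : ℝ) ≤ C2 / x ^ 2 * 1 :=
      mul_le_mul_of_nonneg_left h5 (by positivity)
    rw [mul_one] at this
    exact mul_le_mul_of_nonneg_right this hJ0
  have h8 : C1 / x ^ 2 * (1 / 2 : ℝ) ^ (5 / 4 : ℝ) ≤ C1 / x ^ 2 := by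
    have : C1 / x ^ 2 * (1 / 2 : ℝ) ^ (5 / 4 : ℝ) ≤ C1 / x ^ 2 * 1 :=
      mul_le_mul_of_nonneg_left h6 (by positivity)
    rwa [mul_one] at this
  have hpi : 1 / Real.pi ≤ 1 := by
    rw [div_le_one Real.pi_pos]; linarith [Real.pi_gt_three]
  have hQ0 : 0 ≤ ∫ t, Qf (1 / 2) x t ^ 2 := integral_nonneg fun t => sq_nonneg _
  have h9 : 1 / Real.pi * ∫ t, Qf (1 / 2) x t ^ 2 ≤ ∫ t, Qf (1 / 2) x t ^ 2 :=
    mul_le_of_le_one_left hQ0 hpi
  have h10 := (abs_le.1 h3).2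
  have e : (C1 + C2 * (J + 1)) / x ^ 2 = C1 / x ^ 2 + C2 / x ^ 2 * J + C2 / x ^ 2 := by
    field_simp
    ring
  rw [e]
  have h11 : 0 ≤ C2 / x ^ 2 := by positivity
  linarith

/-- the integrand -/
noncomputable def ff (x w : ℝ) : ℝ := ph w * Real.exp (-((1 / 2 + x) * w))

lemma ff_sq (x w : ℝ) : ff x w ^ 2 = ph w ^ 2 * Real.exp (-((1 + 2 * x) * w)) := by
  unfold ff
  rw [mul_pow, ← Real.exp_nat_mul]
  congr 2
  push_cast
  ring

lemma ff_shift (x w : ℝ) : ff x (w + 1 / 2) = Real.exp (-((1 / 2 + x) / 2)) *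
    (ff x w + Real.exp (-(x * w)) * Dl (1 / 2) w) := by
  unfold ff Dl
  have e1 : Real.exp (-((1 / 2 + x) * (w + 1 / 2))) =
      Real.exp (-((1 / 2 + x) / 2)) * Real.exp (-((1 / 2 + x) * w)) := by
    rw [← Real.exp_add]; congr 1; ring
  have e2 : Real.exp (-(x * w)) * (Real.exp (-(w / 2)) * (ph (w + 1 / 2) - ph w)) =
      Real.exp (-((1 / 2 + x) * w)) * (ph (w + 1 / 2) - ph w) := by
    rw [← mul_assoc, ← Real.exp_add]
    congr 2
    ring
  rw [e1, e2]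
  ring

lemma ff_int (h : L2psi) {x : ℝ} (hx : 0 < x) : IntegrableOn (fun w => ff x w ^ 2) (Ioi 0) := by
  simp only [ff_sq]
  exact h (1 + 2 * x) (by linarith)

lemma shift_int (g : ℝ → ℝ) : ∫ u in Ioi (0 : ℝ), g (u + 1 / 2) = ∫ u in Ioi (1 / 2 : ℝ), g u := by
  have h := (measurePreserving_add_right (volume : Measure ℝ) (1 / 2)).setIntegral_preimage_emb
    (measurableEmbedding_addRight (1 / 2 : ℝ)) g (Ioi (1 / 2))
  have e : (fun u : ℝ => u + 1 / 2) ⁻¹' Ioi (1 / 2) = Ioi 0 := by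
    ext u
    simp
  rw [e] at h
  exact h

lemma shift_intOn (g : ℝ → ℝ) (hg : IntegrableOn g (Ioi (1 / 2))) :
    IntegrableOn (fun u => g (u + 1 / 2)) (Ioi 0) := by
  have h := (measurePreserving_add_right (volume : Measure ℝ) (1 / 2)).integrableOn_comp_preimage
    (measurableEmbedding_addRight (1 / 2 : ℝ)) (f := g) (s := Ioi (1 / 2))
  have e : (fun u : ℝ => u + 1 / 2) ⁻¹' Ioi (1 / 2) = Ioi 0 := by
    ext u
    simp
  rw [e] at h
  exact h.2 hg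

lemma ph_small {w : ℝ} (_h0 : 0 ≤ w) (h1 : w ≤ 1 / 2) : |ph w| ≤ Chebyshev.psi 2 + 2 := by
  unfold ph
  have e1 : Real.exp w ≤ 2 := by
    have h2 : Real.exp w ≤ Real.exp (1 / 2) := Real.exp_le_exp.2 h1
    have h3 : Real.exp (1 / 2) ^ 2 = Real.exp 1 := by
      rw [← Real.exp_nat_mul]; norm_num
    have h4 := Real.exp_one_lt_d9
    have h5 := Real.exp_pos (1 / 2)
    nlinarith
  have e2 := Chebyshev.psi_mono e1
  have e3 := Chebyshev.psi_nonneg (Real.exp w)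
  have e4 := Real.exp_pos w
  rw [abs_le]
  constructor <;> linarith [Chebyshev.psi_nonneg 2]

/-- **the mean square of the error under RH** -/
theorem mean (hRH : RiemannHypothesis) : ∃ C : ℝ, 0 < C ∧ ∀ x : ℝ, 0 < x → x ≤ 1 / 4 →
    ∫ w in Ioi (0 : ℝ), ff x w ^ 2 ≤ C / x ^ 2 := by
  obtain ⟨C1, hC1, h1⟩ := short hRH
  have hL := Pool.Agent.Q296.GM.L2_of_rh hRH
  obtain ⟨B, hB⟩ : ∃ B : ℝ, B = Chebyshev.psi 2 + 2 := ⟨_, rfl⟩
  have hB0 : 0 < B := by rw [hB]; linarith [Chebyshev.psi_nonneg 2]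
  refine ⟨5 * (B ^ 2 + 5 * C1), by positivity, fun x hx hx1 => ?_⟩
  have hi := ff_int hL hx
  obtain ⟨M, hM⟩ : ∃ M : ℝ, M = ∫ w in Ioi (0 : ℝ), ff x w ^ 2 := ⟨_, rfl⟩
  obtain ⟨a, ha⟩ : ∃ a : ℝ, a = Real.exp (-((1 / 2 + x) / 2)) := ⟨_, rfl⟩
  have hM0 : 0 ≤ M := by
    rw [hM]
    exact setIntegral_nonneg measurableSet_Ioi fun w _ => sq_nonneg _
  have hi2 : IntegrableOn (fun w => ff x w ^ 2) (Ioi (1 / 2)) :=
    hi.mono_set (Ioi_subset_Ioi (by norm_num))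
  have hsi := shift_intOn _ hi2
  -- the difference
  have hd : IntegrableOn (fun u => (Real.exp (-(x * u)) * Dl (1 / 2) u) ^ 2) (Ioi 0) := by
    have hm : Measurable (fun u => (Real.exp (-(x * u)) * Dl (1 / 2) u) ^ 2) := by
      have := Dl_meas (1 / 2)
      fun_prop
    refine Integrable.mono' ((hsi.const_mul (2 * (1 / a ^ 2))).add (hi.const_mul 2))
      hm.aestronglyMeasurable (ae_of_all _ fun u => ?_)
    rw [Real.norm_of_nonneg (sq_nonneg _)]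
    have ha0 : 0 < a := by rw [ha]; exact Real.exp_pos _
    have e1 : Real.exp (-(x * u)) * Dl (1 / 2) u = 1 / a * ff x (u + 1 / 2) - ff x u := by
      rw [ff_shift, ← ha]
      field_simp
      ring
    rw [e1]
    simp only [Pi.add_apply]
    have e2 : 2 * (1 / a ^ 2) * ff x (u + 1 / 2) ^ 2 = 2 * (1 / a * ff x (u + 1 / 2)) ^ 2 := by
      rw [mul_pow, div_pow, one_pow]; ring
    rw [e2]
    nlinarith [sq_nonneg (1 / a * ff x (u + 1 / 2) + ff x u)]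
  have hS : ∫ u in Ioi (0 : ℝ), (Real.exp (-(x * u)) * Dl (1 / 2) u) ^ 2 ≤ C1 / x ^ 2 := by
    refine le_trans (le_of_eq ?_) (h1 x hx hx1)
    apply setIntegral_congr_fun measurableSet_Ioi
    intro u _
    simp only []
    rw [mul_pow, ← Real.exp_nat_mul, mul_comm]
    congr 2
    push_cast
    ring
  have ha2 : a ^ 2 ≤ 61 / 100 := by
    rw [ha, ← Real.exp_nat_mul]
    have e1 : ((2 : ℕ) : ℝ) * -((1 / 2 + x) / 2) ≤ -(1 / 2) := by push_cast; linarith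
    refine (Real.exp_le_exp.2 e1).trans ?_
    rw [Real.exp_neg]
    have h2 : (100 / 61 : ℝ) ≤ Real.exp (1 / 2) := by
      have h3 := Real.quadratic_le_exp_of_nonneg (show (0 : ℝ) ≤ 1 / 2 by norm_num)
      have h4 : Real.exp (1 / 2) = Real.exp (1 / 4) ^ 2 := by
        rw [← Real.exp_nat_mul]; norm_num
      have h5 := Real.quadratic_le_exp_of_nonneg (show (0 : ℝ) ≤ 1 / 4 by norm_num)
      rw [h4]
      nlinarith
    have h6 : (Real.exp (1 / 2))⁻¹ ≤ (100 / 61 : ℝ)⁻¹ := inv_anti₀ (by norm_num) h2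
    refine h6.trans (by norm_num)
  have hsum : IntegrableOn (fun u => 61 / 100 * (5 / 4 * ff x u ^ 2 +
      5 * (Real.exp (-(x * u)) * Dl (1 / 2) u) ^ 2)) (Ioi 0) :=
    ((hi.const_mul (5 / 4)).add (hd.const_mul 5)).const_mul _
  have hs2 : ∫ u in Ioi (0 : ℝ), ff x (u + 1 / 2) ^ 2 ≤ 61 / 100 * (5 / 4 * M + 5 * (C1 / x ^ 2)) := by
    calc ∫ u in Ioi (0 : ℝ), ff x (u + 1 / 2) ^ 2 ≤ ∫ u in Ioi (0 : ℝ), 61 / 100 * (5 / 4 * ff x u ^ 2 +
          5 * (Real.exp (-(x * u)) * Dl (1 / 2) u) ^ 2) := by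
          apply setIntegral_mono hsi hsum
          intro u
          simp only []
          rw [ff_shift, ← ha, mul_pow]
          obtain ⟨p, hp⟩ : ∃ p : ℝ, p = ff x u := ⟨_, rfl⟩
          obtain ⟨r, hr⟩ : ∃ r : ℝ, r = Real.exp (-(x * u)) * Dl (1 / 2) u := ⟨_, rfl⟩
          rw [← hp, ← hr]
          have e1 : (p + r) ^ 2 ≤ 5 / 4 * p ^ 2 + 5 * r ^ 2 := by nlinarith [sq_nonneg (p - 4 * r)]
          calc a ^ 2 * (p + r) ^ 2 ≤ 61 / 100 * (p + r) ^ 2 :=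
                mul_le_mul_of_nonneg_right ha2 (sq_nonneg _)
            _ ≤ _ := mul_le_mul_of_nonneg_left e1 (by norm_num)
      _ = 61 / 100 * (5 / 4 * M + 5 * ∫ u in Ioi (0 : ℝ), (Real.exp (-(x * u)) * Dl (1 / 2) u) ^ 2) := by
          rw [integral_const_mul, integral_add (hi.const_mul _) (hd.const_mul _), integral_const_mul,
            integral_const_mul, hM]
      _ ≤ _ := by
          have := mul_le_mul_of_nonneg_left hS (show (0 : ℝ) ≤ 5 by norm_num)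
          linarith
  rw [shift_int (fun u => ff x u ^ 2)] at hs2
  have hsplit : M = (∫ w in Ioc (0 : ℝ) (1 / 2), ff x w ^ 2) + ∫ w in Ioi (1 / 2 : ℝ), ff x w ^ 2 := by
    rw [hM, ← setIntegral_union (by
      rw [Set.disjoint_left]
      intro y hy hy2
      exact absurd hy.2 (not_le.2 hy2)) measurableSet_Ioi (hi.mono_set Ioc_subset_Ioi_self) hi2,
      Ioc_union_Ioi_eq_Ioi (by norm_num)]
  have hsm : ∫ w in Ioc (0 : ℝ) (1 / 2), ff x w ^ 2 ≤ B ^ 2 := by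
    have h2 : ∫ w in Ioc (0 : ℝ) (1 / 2), ff x w ^ 2 ≤ ∫ w in Ioc (0 : ℝ) (1 / 2), B ^ 2 := by
      apply setIntegral_mono_on (hi.mono_set Ioc_subset_Ioi_self) (by simp) measurableSet_Ioc
      intro w hw
      unfold ff
      rw [mul_pow]
      have e1 := ph_small hw.1.le hw.2
      rw [← hB] at e1
      have e2 : ph w ^ 2 ≤ B ^ 2 := by
        rw [← sq_abs]
        exact pow_le_pow_left₀ (abs_nonneg _) e1 2
      have e3 : Real.exp (-((1 / 2 + x) * w)) ≤ 1 := by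
        rw [Real.exp_le_one_iff]
        have := mul_nonneg (show (0 : ℝ) ≤ 1 / 2 + x by linarith) hw.1.le
        linarith
      have e4 : Real.exp (-((1 / 2 + x) * w)) ^ 2 ≤ 1 := pow_le_one₀ (Real.exp_pos _).le e3
      calc ph w ^ 2 * Real.exp (-((1 / 2 + x) * w)) ^ 2 ≤ ph w ^ 2 * 1 :=
            mul_le_mul_of_nonneg_left e4 (sq_nonneg _)
        _ ≤ B ^ 2 := by rw [mul_one]; exact e2
    refine h2.trans ?_
    rw [setIntegral_const]
    simp only [measureReal_def, Real.volume_Ioc, smul_eq_mul]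
    rw [ENNReal.toReal_ofReal (by norm_num)]
    nlinarith [sq_nonneg B]
  have hx2 : B ^ 2 ≤ B ^ 2 / x ^ 2 := by
    rw [le_div_iff₀ (by positivity)]
    have : x ^ 2 ≤ 1 := by nlinarith
    nlinarith [sq_nonneg B]
  rw [← hM]
  have e1 : 5 * (B ^ 2 + 5 * C1) / x ^ 2 = 5 * (B ^ 2 / x ^ 2) + 25 * (C1 / x ^ 2) := by ring
  rw [e1]
  have h9 : 0 ≤ C1 / x ^ 2 := by positivity
  nlinarith

/-! ### the theorem -/

lemma sq_int : IntegrableOn (fun t : ℝ => t ^ 2 * Real.exp (-t)) (Ioi 0) := by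
  have h := Real.GammaIntegral_convergent (s := 3) (by norm_num)
  refine h.congr_fun (fun t ht => ?_) measurableSet_Ioi
  simp only []
  rw [show (3 : ℝ) - 1 = ((2 : ℕ) : ℝ) by norm_num, Real.rpow_natCast]
  ring

lemma psiC_meas {q : ℕ} [NeZero q] (χ : DirichletCharacter ℂ q) :
    Measurable (fun t : ℝ => psiC χ (Real.exp t)) := by
  have h1 : Measurable (fun n : ℕ => ∑ n ∈ Finset.Icc 1 n,
      ((ArithmeticFunction.vonMangoldt n : ℝ) : ℂ) * χ (n : ZMod q)) := measurable_from_top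
  exact h1.comp (Nat.measurable_floor.comp Real.measurable_exp)

lemma norm_sq_le (q : ℕ) [NeZero q] {t : ℝ} (ht : 0 < t) :
    ‖psiC (1 : DirichletCharacter ℂ q) (Real.exp t) - (Real.exp t : ℂ)‖ ^ 2 ≤
      2 * ph t ^ 2 + 8 * Real.log q ^ 2 * t ^ 2 := by
  rw [psiC_one, ← Complex.ofReal_sub, Complex.norm_real, Real.norm_eq_abs, sq_abs]
  have h1 : Chebyshev.psi (Real.exp t) - EE q (Real.exp t) - Real.exp t = ph t - EE q (Real.exp t) := by
    unfold ph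
    ring
  rw [h1]
  have h2 := EE_nonneg q (Real.exp t)
  have h3 := EE_le q (Nat.one_le_iff_ne_zero.2 (NeZero.ne q)) ht
  obtain ⟨e, he⟩ : ∃ e : ℝ, e = EE q (Real.exp t) := ⟨_, rfl⟩
  rw [← he] at h2 h3 ⊢
  have h4 : e ^ 2 ≤ (2 * Real.log q * t) ^ 2 := pow_le_pow_left₀ h2 h3 2
  nlinarith [sq_nonneg (ph t + e)]

theorem t_PR : S_PR := by
  intro hRH c hc
  obtain ⟨C, hC, hm⟩ := mean hRH
  have hL := Pool.Agent.Q296.GM.L2_of_rh hRH
  obtain ⟨J, hJ⟩ : ∃ J : ℝ, J = ∫ t in Ioi (0 : ℝ), t ^ 2 * Real.exp (-t) := ⟨_, rfl⟩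
  have hJ0 : 0 ≤ J := by
    rw [hJ]
    exact setIntegral_nonneg measurableSet_Ioi fun t _ => by positivity
  obtain ⟨A, hA⟩ : ∃ A : ℝ, A = 2 * (C / c ^ 2) + 8 * J := ⟨_, rfl⟩
  have hA0 : 0 ≤ A := by rw [hA]; positivity
  refine ⟨max ⌈Real.exp (4 * c)⌉₊ (max ⌈(128 * A) ^ 4⌉₊ 3), fun q _ hq => ?_⟩
  have hq1 : Real.exp (4 * c) ≤ q := (Nat.le_ceil _).trans (by exact_mod_cast (le_max_left _ _).trans hq)
  have hq2 : (128 * A) ^ 4 ≤ (q : ℝ) := (Nat.le_ceil _).trans (by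
    exact_mod_cast ((le_max_left _ _).trans (le_max_right _ _)).trans hq)
  have hq3 : 3 ≤ q := ((le_max_right _ _).trans (le_max_right _ _)).trans hq
  have hqr : (0 : ℝ) < q := by exact_mod_cast (by omega : 0 < q)
  obtain ⟨L, hLd⟩ : ∃ L : ℝ, L = Real.log q := ⟨_, rfl⟩
  have hL4 : 4 * c ≤ L := by
    rw [hLd, Real.le_log_iff_exp_le hqr]
    exact hq1
  have hLp : 0 < L := by linarith
  obtain ⟨δ, hδ⟩ : ∃ δ : ℝ, δ = c / L := ⟨_, rfl⟩
  have hδ0 : 0 < δ := by rw [hδ]; positivity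
  have hδ1 : δ ≤ 1 / 4 := by
    rw [hδ, div_le_iff₀ hLp]
    linarith
  rw [← hLd, ← hδ]
  have hff := ff_int hL hδ0
  have hbd : ∀ t ∈ Ioi (0 : ℝ), ‖psiC (1 : DirichletCharacter ℂ q) (Real.exp t) - (Real.exp t : ℂ)‖ ^ 2 *
      Real.exp (-(2 * (1 / 2 + δ) * t)) ≤ 2 * ff δ t ^ 2 + 8 * L ^ 2 * (t ^ 2 * Real.exp (-t)) := by
    intro t ht
    have ht0 : (0 : ℝ) < t := ht
    have h1 := norm_sq_le q ht0
    rw [← hLd] at h1
    have h2 : Real.exp (-(2 * (1 / 2 + δ) * t)) = Real.exp (-((1 + 2 * δ) * t)) := by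
      congr 1
      ring
    have h3 : Real.exp (-((1 + 2 * δ) * t)) ≤ Real.exp (-t) := by
      apply Real.exp_le_exp.2
      nlinarith [mul_pos hδ0 ht0]
    rw [h2, ff_sq]
    have h4 := mul_le_mul_of_nonneg_right h1 (Real.exp_pos (-((1 + 2 * δ) * t))).le
    refine h4.trans ?_
    rw [add_mul]
    have h5 : 8 * L ^ 2 * t ^ 2 * Real.exp (-((1 + 2 * δ) * t)) ≤ 8 * L ^ 2 * t ^ 2 * Real.exp (-t) :=
      mul_le_mul_of_nonneg_left h3 (by positivity)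
    linarith
  have hgi : IntegrableOn (fun t => 2 * ff δ t ^ 2 + 8 * L ^ 2 * (t ^ 2 * Real.exp (-t))) (Ioi 0) :=
    (hff.const_mul 2).add (sq_int.const_mul _)
  have hmeas : Measurable (fun t : ℝ =>
      ‖psiC (1 : DirichletCharacter ℂ q) (Real.exp t) - (Real.exp t : ℂ)‖ ^ 2 *
        Real.exp (-(2 * (1 / 2 + δ) * t))) := by
    have h1 := psiC_meas (1 : DirichletCharacter ℂ q)
    have h2 : Measurable (fun t : ℝ => (Real.exp t : ℂ)) :=
      Complex.measurable_ofReal.comp Real.measurable_exp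
    exact ((h1.sub h2).norm.pow_const 2).mul (by fun_prop)
  have hint : IntegrableOn (fun t : ℝ =>
      ‖psiC (1 : DirichletCharacter ℂ q) (Real.exp t) - (Real.exp t : ℂ)‖ ^ 2 *
        Real.exp (-(2 * (1 / 2 + δ) * t))) (Ioi 0) := by
    refine Integrable.mono' hgi hmeas.aestronglyMeasurable ?_
    filter_upwards [self_mem_ae_restrict (measurableSet_Ioi (a := (0 : ℝ)))] with t ht
    rw [Real.norm_of_nonneg (by positivity)]
    exact hbd t ht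
  refine ⟨hint, ?_⟩
  have h1 : ∫ t in Ioi (0 : ℝ), ‖psiC (1 : DirichletCharacter ℂ q) (Real.exp t) - (Real.exp t : ℂ)‖ ^ 2 *
      Real.exp (-(2 * (1 / 2 + δ) * t)) ≤ A * L ^ 2 := by
    calc _ ≤ ∫ t in Ioi (0 : ℝ), (2 * ff δ t ^ 2 + 8 * L ^ 2 * (t ^ 2 * Real.exp (-t))) :=
          setIntegral_mono_on hint hgi measurableSet_Ioi hbd
      _ = 2 * (∫ t in Ioi (0 : ℝ), ff δ t ^ 2) + 8 * L ^ 2 * J := by
          rw [integral_add (hff.const_mul _) (sq_int.const_mul _), integral_const_mul, integral_const_mul, hJ]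
      _ ≤ 2 * (C / δ ^ 2) + 8 * L ^ 2 * J := by
          have := hm δ hδ0 hδ1
          linarith
      _ = A * L ^ 2 := by
          rw [hA, hδ]
          field_simp
  have h2 : A * L ^ 2 ≤ (Nat.totient q : ℝ) := by
    have h3 : L ≤ (q : ℝ) ^ (1 / 8 : ℝ) / (1 / 8) := by
      rw [hLd]
      exact Real.log_le_rpow_div hqr.le (by norm_num)
    obtain ⟨z, hz⟩ : ∃ z : ℝ, z = (q : ℝ) ^ (1 / 8 : ℝ) := ⟨_, rfl⟩
    have hz0 : 0 < z := by rw [hz]; positivity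
    have hz8 : z ^ 8 = q := by
      rw [hz, ← Real.rpow_natCast, ← Real.rpow_mul hqr.le]
      norm_num
    rw [← hz] at h3
    have h4 : 128 * A ≤ z ^ 2 := by
      have h5 : (128 * A) ^ 4 ≤ (z ^ 2) ^ 4 := by
        rw [← pow_mul, hz8]
        exact hq2
      exact le_of_pow_le_pow_left₀ (by norm_num) (by positivity) h5
    have h6 : Real.sqrt q = z ^ 4 := by
      rw [← hz8, show z ^ 8 = (z ^ 4) ^ 2 by ring, Real.sqrt_sq (by positivity)]
    have h7 := sqrt_le_tot q (by omega)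
    rw [h6] at h7
    have h8 : L ^ 2 ≤ (8 * z) ^ 2 := by
      apply pow_le_pow_left₀ hLp.le
      linarith
    have h9 : A * L ^ 2 ≤ A * (8 * z) ^ 2 := mul_le_mul_of_nonneg_left h8 hA0
    have h10 : 128 * A * z ^ 2 ≤ z ^ 2 * z ^ 2 := mul_le_mul_of_nonneg_right h4 (by positivity)
    nlinarith
  have hφ : (0 : ℝ) < Nat.totient q := by
    exact_mod_cast Nat.totient_pos.2 (by omega)
  rw [one_div, inv_mul_le_iff₀ hφ, mul_one]
  exact h1.trans h2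

end Pool.Agent.Q24.HV
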