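import Pool.Agent.Q253.HV.Stm

set_option autoImplicit false

/-!
# Project HV, job PR: arithmetic lemmas
-/

namespace Pool.Agent.Q24.HV

open Finset

lemma two_pow_omega (m : ℕ) (hq : m ≠ 0) : 2 ^ m.primeFactors.card ≤ m := by
  calc 2 ^ m.primeFactors.card = ∏ _p ∈ m.primeFactors, 2 := by rw [Finset.prod_const]
    _ ≤ ∏ p ∈ m.primeFactors, p := Finset.prod_le_prod' (fun p hp => (Nat.prime_of_mem_primeFactors hp).two_le)
    _ ≤ m := Nat.le_of_dvd (Nat.pos_of_ne_zero hq) (Nat.prod_primeFactors_dvd m)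

lemma omega_log (m : ℕ) (hm : 1 ≤ m) : (m.primeFactors.card : ℝ) ≤ 2 * Real.log m := by
  have h1 : (2:ℝ) ^ m.primeFactors.card ≤ m := by
    exact_mod_cast two_pow_omega m (by omega)
  have h2 := Real.log_le_log (by positivity) h1
  rw [Real.log_pow] at h2
  have h3 : (0.5:ℝ) < Real.log 2 := by
    have := Real.log_two_gt_d9
    linarith
  have h4 : (0:ℝ) ≤ (m.primeFactors.card : ℝ) := by positivity
  nlinarith

/-- the contribution of prime powers not coprime to the modulus -/
lemma sum_ncop (N m : ℕ) (hm : 1 ≤ m) :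
    ∑ n ∈ (Icc 1 N).filter (fun n => ¬ n.Coprime m), ArithmeticFunction.vonMangoldt n ≤
      m.primeFactors.card * Real.log N := by
  set M := ∏ p ∈ m.primeFactors, p ^ (Nat.log p N) with hM
  have hM0 : M ≠ 0 := by
    rw [hM, prod_ne_zero_iff]
    intro p hp
    exact pow_ne_zero _ (Nat.prime_of_mem_primeFactors hp).ne_zero
  have h1 : ∑ n ∈ (Icc 1 N).filter (fun n => ¬ n.Coprime m), ArithmeticFunction.vonMangoldt n ≤
      ∑ n ∈ M.divisors, ArithmeticFunction.vonMangoldt n := by
    have h2 : ∑ n ∈ (Icc 1 N).filter (fun n => ¬ n.Coprime m),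
        ArithmeticFunction.vonMangoldt n =
        ∑ n ∈ ((Icc 1 N).filter (fun n => ¬ n.Coprime m)).filter
          (fun n => ArithmeticFunction.vonMangoldt n ≠ 0), ArithmeticFunction.vonMangoldt n := by
      rw [sum_filter_ne_zero]
    rw [h2]
    apply sum_le_sum_of_subset_of_nonneg
    · intro n hn
      rw [mem_filter, mem_filter, mem_Icc] at hn
      obtain ⟨⟨⟨h3, h4⟩, h5⟩, h6⟩ := hn
      rw [ArithmeticFunction.vonMangoldt_ne_zero_iff] at h6
      obtain ⟨p, k, hp, hk, rfl⟩ := h6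
      have hp' : p.Prime := Nat.prime_iff.mpr hp
      rw [Nat.mem_divisors]
      refine ⟨?_, hM0⟩
      have hpm : p ∣ m := by
        by_contra hcon
        apply h5
        exact Nat.Coprime.pow_left k ((Nat.Prime.coprime_iff_not_dvd hp').mpr hcon)
      have hmem : p ∈ m.primeFactors := Nat.mem_primeFactors.mpr ⟨hp', hpm, by omega⟩
      have hk2 : k ≤ Nat.log p N := Nat.le_log_of_pow_le hp'.one_lt h4
      exact (pow_dvd_pow p hk2).trans (dvd_prod_of_mem _ hmem)
    · intro n _ _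
      exact ArithmeticFunction.vonMangoldt_nonneg
  refine h1.trans ?_
  rw [ArithmeticFunction.vonMangoldt_sum, hM]
  push_cast
  rw [Real.log_prod]
  · calc ∑ p ∈ m.primeFactors, Real.log ((p:ℝ) ^ (Nat.log p N)) ≤
        ∑ p ∈ m.primeFactors, Real.log N := by
          apply sum_le_sum
          intro p hp
          have hp' := Nat.prime_of_mem_primeFactors hp
          rcases Nat.eq_zero_or_pos N with h | h
          · subst h; simp
          · apply Real.log_le_log
            · have := hp'.pos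
              positivity
            · exact_mod_cast Nat.pow_log_le_self p (by omega)
      _ = _ := by rw [sum_const, nsmul_eq_mul]
  · intro p hp
    have := (Nat.prime_of_mem_primeFactors hp).pos
    positivity

lemma card_div_le (k : ℕ) : k.divisors.card ≤ 2 * Nat.sqrt k := by
  classical
  rcases Nat.eq_zero_or_pos k with rfl | hk
  · simp
  have h1 : k.divisors ⊆ (Finset.Icc 1 (Nat.sqrt k)) ∪
      (Finset.Icc 1 (Nat.sqrt k)).image (fun d => k / d) := by
    intro d hd
    have hdk := Nat.dvd_of_mem_divisors hd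
    have hd0 := Nat.pos_of_mem_divisors hd
    rw [Finset.mem_union]
    by_cases h : d ≤ Nat.sqrt k
    · left; rw [Finset.mem_Icc]; exact ⟨hd0, h⟩
    · right
      rw [Finset.mem_image]
      refine ⟨k / d, ?_, Nat.div_div_self hdk hk.ne'⟩
      rw [Finset.mem_Icc]
      constructor
      · exact Nat.div_pos (Nat.le_of_dvd hk hdk) hd0
      · by_contra hcon
        push Not at h hcon
        have h2 : d * (k / d) = k := Nat.mul_div_cancel' hdk
        have h3 := Nat.lt_succ_sqrt k
        have h4 : (Nat.sqrt k + 1) * (Nat.sqrt k + 1) ≤ d * (k / d) := Nat.mul_le_mul h hcon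
        rw [h2] at h4
        exact absurd h3 (not_lt.mpr h4)
  calc k.divisors.card ≤ ((Finset.Icc 1 (Nat.sqrt k)) ∪
      (Finset.Icc 1 (Nat.sqrt k)).image (fun d => k / d)).card := Finset.card_le_card h1
    _ ≤ (Finset.Icc 1 (Nat.sqrt k)).card +
      ((Finset.Icc 1 (Nat.sqrt k)).image (fun d => k / d)).card := Finset.card_union_le _ _
    _ ≤ Nat.sqrt k + Nat.sqrt k := by
        apply add_le_add
        · simp
        · exact Finset.card_image_le.trans (by simp)
    _ = 2 * Nat.sqrt k := by ring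

lemma sqrt_le_tot (k : ℕ) (hk : 1 ≤ k) : Real.sqrt k ≤ 2 * Nat.totient k := by
  have h1 : k ≤ k.divisors.card * Nat.totient k := by
    calc k = ∑ e ∈ k.divisors, Nat.totient e := (Nat.sum_totient k).symm
      _ ≤ ∑ _e ∈ k.divisors, Nat.totient k := by
          apply Finset.sum_le_sum
          intro e he
          exact Nat.le_of_dvd (Nat.totient_pos.mpr (by omega))
            (Nat.totient_dvd_of_dvd (Nat.dvd_of_mem_divisors he))
      _ = k.divisors.card * Nat.totient k := by rw [Finset.sum_const, smul_eq_mul]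
  have h2 := card_div_le k
  have h3 : k ≤ 2 * Nat.sqrt k * Nat.totient k := h1.trans (Nat.mul_le_mul_right _ h2)
  have h4 : (k : ℝ) ≤ 2 * (Nat.sqrt k : ℝ) * Nat.totient k := by exact_mod_cast h3
  have h5 : (Nat.sqrt k : ℝ) ≤ Real.sqrt k := Real.nat_sqrt_le_real_sqrt
  have h6 : 0 < Real.sqrt k := Real.sqrt_pos.mpr (by exact_mod_cast (by omega : 0 < k))
  have h7 : Real.sqrt k * Real.sqrt k = k := Real.mul_self_sqrt (by positivity)
  have h8 : (0 : ℝ) ≤ Nat.totient k := by positivity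
  have h9 : Real.sqrt k * Real.sqrt k ≤ Real.sqrt k * (2 * Nat.totient k) := by
    rw [h7]
    refine h4.trans ?_
    nlinarith
  exact le_of_mul_le_mul_left h9 h6

/-- the prime powers not coprime to `q` -/
noncomputable def EE (q : ℕ) (x : ℝ) : ℝ :=
  ∑ n ∈ (Icc 1 ⌊x⌋₊).filter (fun n => ¬ n.Coprime q), ArithmeticFunction.vonMangoldt n

lemma EE_nonneg (q : ℕ) (x : ℝ) : 0 ≤ EE q x :=
  sum_nonneg fun _ _ => ArithmeticFunction.vonMangoldt_nonneg

lemma EE_le (q : ℕ) (hq : 1 ≤ q) {t : ℝ} (ht : 0 < t) : EE q (Real.exp t) ≤ 2 * Real.log q * t := by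
  unfold EE
  refine (sum_ncop _ q hq).trans ?_
  have h1 := omega_log q hq
  have h2 : Real.log (⌊Real.exp t⌋₊ : ℝ) ≤ t := by
    have h3 : (⌊Real.exp t⌋₊ : ℝ) ≤ Real.exp t := Nat.floor_le (Real.exp_pos t).le
    have h4 : 1 ≤ ⌊Real.exp t⌋₊ := by
      rw [Nat.one_le_floor_iff]
      exact Real.one_le_exp ht.le
    have h5 : (0 : ℝ) < (⌊Real.exp t⌋₊ : ℝ) := by exact_mod_cast h4
    have h6 := Real.log_le_log h5 h3
    rwa [Real.log_exp] at h6
  have h3 : 0 ≤ Real.log (⌊Real.exp t⌋₊ : ℝ) := Real.log_natCast_nonneg _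
  have h4 : 0 ≤ Real.log (q : ℝ) := Real.log_natCast_nonneg _
  calc (q.primeFactors.card : ℝ) * Real.log (⌊Real.exp t⌋₊ : ℝ) ≤ (2 * Real.log q) * t :=
        mul_le_mul h1 h2 h3 (by positivity)
    _ = _ := rfl

lemma psiC_one (q : ℕ) [NeZero q] (x : ℝ) :
    Pool.Agent.Q253.HV.psiC (1 : DirichletCharacter ℂ q) x = ((Chebyshev.psi x - EE q x : ℝ) : ℂ) := by
  have h1 : Chebyshev.psi x = ∑ n ∈ Icc 1 ⌊x⌋₊, ArithmeticFunction.vonMangoldt n := by
    unfold Chebyshev.psi
    apply sum_congr _ fun _ _ => rfl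
    ext n
    simp only [mem_Ioc, mem_Icc]
    omega
  have h2 := sum_filter_add_sum_filter_not (Icc 1 ⌊x⌋₊) (fun n => n.Coprime q)
    (fun n => (ArithmeticFunction.vonMangoldt n : ℝ))
  have h3 : Chebyshev.psi x - EE q x =
      ∑ n ∈ (Icc 1 ⌊x⌋₊).filter (fun n => n.Coprime q), ArithmeticFunction.vonMangoldt n := by
    rw [h1, ← h2]
    unfold EE
    ring
  rw [h3, sum_filter]
  unfold Pool.Agent.Q253.HV.psiC
  push_cast
  apply sum_congr rfl
  intro n _
  by_cases h : n.Coprime q
  · rw [if_pos h, MulChar.one_apply ((ZMod.isUnit_iff_coprime n q).2 h), mul_one]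
  · rw [if_neg h, MulChar.map_nonunit _ (fun hh => h ((ZMod.isUnit_iff_coprime n q).1 hh)), mul_zero,
      Complex.ofReal_zero]

end Pool.Agent.Q24.HV
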